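import Pool.Agent.Helper15_SIQ.Stmts

/-!
# MP_021b97_an, Q1: PR4, property (4) of the scheme
-/

set_option autoImplicit false

open MeasureTheory Filter Topology

namespace Pool.Agent.SIQ.H93

open Pool.Agent.SIU

theorem wedge_zero_r {N k l : ℕ} (a : Alt N k) (v : Fin (k + l) → (Fin N → ℂ)) :
    wedge a (0 : Alt N l) v = 0 := by
  have h : tensor a (0 : Alt N l) = 0 := by
    ext w
    show a _ * (0 : Alt N l) _ = 0
    simp
  unfold wedge
  rw [h]
  simp

/-! ### the action of the compact torus -/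

theorem act_norm_le {c : C3} (hc : ∀ j, ‖c j‖ = 1) (v : E6) : ‖X1.act c v‖ ≤ ‖v‖ := by
  rw [pi_norm_le_iff_of_nonneg (norm_nonneg _)]
  intro m
  obtain ⟨i, rfl | rfl⟩ := blocks m
  · rw [act1_lo, norm_mul, hc, one_mul]
    exact norm_le_pi_norm v _
  · rw [act1_hi, norm_mul, hc, one_mul]
    exact norm_le_pi_norm v _

theorem ne_zero_of_norm {c : C3} (hc : ∀ j, ‖c j‖ = 1) (j : Fin 3) : c j ≠ 0 := by
  intro h
  have := hc j
  rw [h, norm_zero] at this
  exact zero_ne_one this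

theorem act_isometry {c : C3} (hc : ∀ j, ‖c j‖ = 1) : Isometry (X1.act c) := by
  apply Isometry.of_dist_eq
  intro z w
  rw [dist_eq_norm, dist_eq_norm]
  have h1 : X1.act c z - X1.act c w = X1.act c (z - w) := by
    rw [← actL1_apply, ← actL1_apply, ← actL1_apply, map_sub]
  rw [h1]
  apply le_antisymm (act_norm_le hc _)
  have h := act_norm_le (c := fun j => (c j)⁻¹) (by simp [hc]) (X1.act c (z - w))
  rwa [act1_inv (ne_zero_of_norm hc)] at h

theorem nz_lo (z : E6) (i : Fin 3) : nz z (lo i) = (((√(nn z i))⁻¹ : ℝ) : ℂ) * z (lo i) := by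
  unfold nz
  rw [act1_lo]

theorem nz_hi (z : E6) (i : Fin 3) : nz z (hi i) = (((√(nn z i))⁻¹ : ℝ) : ℂ) * z (hi i) := by
  unfold nz
  rw [act1_hi]

theorem sqrt_nn_act (c : C3) (z : E6) (i : Fin 3) :
    √(nn (X1.act c z) i) = ‖c i‖ * √(nn z i) := by
  rw [nn_act, Real.sqrt_mul (sq_nonneg _), Real.sqrt_sq (norm_nonneg _)]

theorem nz_act {c : C3} (z : E6) :
    nz (X1.act c z) = X1.act (fun j => c j / (‖c j‖ : ℂ)) (nz z) := by
  apply ext6
  · intro i
    rw [nz_lo, act1_lo, act1_lo, nz_lo, sqrt_nn_act]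
    push_cast
    rw [mul_inv]
    ring
  · intro i
    rw [nz_hi, act1_hi, act1_hi, nz_hi, sqrt_nn_act]
    push_cast
    rw [mul_inv]
    ring

theorem norm_div_norm {c : C3} (hc : ∀ j, c j ≠ 0) (j : Fin 3) : ‖c j / (‖c j‖ : ℂ)‖ = 1 := by
  rw [norm_div, Complex.norm_real, norm_norm, div_self (norm_ne_zero_iff.2 (hc j))]

theorem act_sqrt_nz {z : E6} (hz : z ∈ X1.U) :
    X1.act (fun i => ((√(nn z i) : ℝ) : ℂ)) (nz z) = z := by
  unfold nz
  rw [act1_act]
  have : (fun i => ((√(nn z i) : ℝ) : ℂ) * (((√(nn z i))⁻¹ : ℝ) : ℂ)) = fun _ => (1 : ℂ) := by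
    funext i
    have h := (mem_U1' z).mp hz i
    rw [← Complex.ofReal_mul, mul_inv_cancel₀ (Real.sqrt_pos.2 h).ne', Complex.ofReal_one]
  rw [this, act1_one]

theorem continuousOn_nz : ContinuousOn nz X1.U := by
  have hco : ∀ i, ContinuousOn (fun z : E6 => (((√(nn z i))⁻¹ : ℝ) : ℂ)) X1.U := by
    intro i
    refine Complex.continuous_ofReal.comp_continuousOn ?_
    refine ContinuousOn.inv₀ ((continuous_nn i).sqrt.continuousOn) fun z hz => ?_
    exact (Real.sqrt_pos.2 ((mem_U1' z).mp hz i)).ne'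
  rw [continuousOn_pi]
  intro m
  obtain ⟨i, rfl | rfl⟩ := blocks m
  · simp only [nz_lo]
    exact (hco i).mul (continuous_apply (lo i)).continuousOn
  · simp only [nz_hi]
    exact (hco i).mul (continuous_apply (hi i)).continuousOn

/-! ### distance to an orbit -/

/-- the orbit of `w` under the compact torus -/
def orb (w : E6) : Set E6 := (fun c : C3 => X1.act c w) '' {c | ∀ j, ‖c j‖ = 1}

theorem isCompact_orb (w : E6) : IsCompact (orb w) := by
  have h : {c : C3 | ∀ j, ‖c j‖ = 1} = Set.univ.pi fun _ : Fin 3 => Metric.sphere (0 : ℂ) 1 := by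
    ext c
    simp [Set.mem_pi]
  unfold orb
  rw [h]
  refine (isCompact_univ_pi fun _ => isCompact_sphere _ _).image ?_
  refine continuous_pi fun m => ?_
  obtain ⟨i, rfl | rfl⟩ := blocks m
  · simp only [act1_lo]
    exact (continuous_apply i).mul continuous_const
  · simp only [act1_hi]
    exact (continuous_apply i).mul continuous_const

theorem self_mem_orb (w : E6) : w ∈ orb w := ⟨fun _ => 1, fun _ => norm_one, act1_one w⟩

theorem act_image_orb {c : C3} (hc : ∀ j, ‖c j‖ = 1) (w : E6) : X1.act c '' orb w = orb w := by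
  ext y
  constructor
  · rintro ⟨_, ⟨d, hd, rfl⟩, rfl⟩
    refine ⟨fun i => c i * d i, fun j => ?_, (act1_act _ _ _).symm⟩
    rw [norm_mul, hc, hd j, one_mul]
  · rintro ⟨d, hd, rfl⟩
    refine ⟨X1.act (fun i => (c i)⁻¹ * d i) w, ⟨_, fun j => ?_, rfl⟩, ?_⟩
    · rw [norm_mul, norm_inv, hc, hd j, inv_one, one_mul]
    · show X1.act c (X1.act _ w) = X1.act d w
      rw [act1_act]
      congr 1
      funext i
      rw [← mul_assoc, mul_inv_cancel₀ (ne_zero_of_norm hc i), one_mul]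

/-- the distance of the normalised point to the orbit of `w` -/
noncomputable def ds (w z : E6) : ℝ := Metric.infDist (nz z) (orb w)

theorem ds_act (w : E6) {c : C3} (hc : ∀ j, c j ≠ 0) (z : E6) : ds w (X1.act c z) = ds w z := by
  unfold ds
  rw [nz_act]
  conv_lhs => rw [← act_image_orb (norm_div_norm hc) w]
  exact Metric.infDist_image (act_isometry (norm_div_norm hc))

theorem continuousOn_ds (w : E6) : ContinuousOn (ds w) X1.U :=
  (Metric.continuous_infDist_pt (orb w)).comp_continuousOn continuousOn_nz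

theorem rho_supp {δ : Fin 3 → ℝ} (hδ : Ad δ) {g : E6} (h : rho δ g ≠ 0) :
    g ∈ X1.U ∧ ∀ i, (1 - δ i) * √(nn g i) < (g (lo i)).re := by
  have h1 : ∀ i, th (δ i) ((g (lo i)).re / √(nn g i)) ≠ 0 := by
    intro i hi0
    apply h
    unfold rho
    exact Finset.prod_eq_zero (Finset.mem_univ i) (by rw [hi0, zero_mul])
  have h2 : ∀ i, 1 - δ i < (g (lo i)).re / √(nn g i) := fun i => th_lt (hδ i).1 (h1 i)
  have h3 : ∀ i, 0 < √(nn g i) := by
    intro i
    rcases (Real.sqrt_nonneg (nn g i)).lt_or_eq with h4 | h4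
    · exact h4
    · have := h2 i
      rw [← h4, div_zero] at this
      have := (hδ i).2
      linarith
  refine ⟨(mem_U1' g).2 fun i => Real.sqrt_pos.1 (h3 i), fun i => ?_⟩
  exact (lt_div_iff₀ (h3 i)).1 (h2 i)

theorem pair_congr_left {k l : ℕ} {a a' : E6 → Alt 6 k} (b : E6 → Alt 6 l)
    (h : ∀ z ∈ X1.U, a z = a' z) : X1.pair a b = X1.pair a' b := by
  unfold Toric.pair Toric.pull
  simp only [h _ (sigma1_mem_U _)]

theorem pair_congr_right {k l : ℕ} (a : E6 → Alt 6 k) {b b' : E6 → Alt 6 l}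
    (h : ∀ z ∈ X1.U, b z = b' z) : X1.pair a b = X1.pair a b' := by
  unfold Toric.pair Toric.pull
  simp only [h _ (sigma1_mem_U _)]

theorem pair_congr_supp {k l : ℕ} {a a' : E6 → Alt 6 k} (b : E6 → Alt 6 l)
    (h : ∀ z ∈ X1.U, b z ≠ 0 → a z = a' z) : X1.pair a b = X1.pair a' b := by
  unfold Toric.pair
  congr 1
  funext x
  by_cases hb : b (X1.σ x) = 0
  · have h0 : Toric.pull X1.σ b x = 0 := by
      unfold Toric.pull
      rw [hb]
      rfl
    rw [h0, wedge_zero_r, wedge_zero_r]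
  · unfold Toric.pull
    rw [h _ (sigma1_mem_U x) hb]

/-- the cut-off function -/
noncomputable def chi (w : E6) (η : ℝ) (z : E6) : ℝ := min 1 (max 0 (3 - 4 * ds w z / η))

theorem chi_one {w : E6} {η : ℝ} (hη : 0 < η) {z : E6} (h : ds w z ≤ η / 2) : chi w η z = 1 := by
  unfold chi
  have h1 : 4 * ds w z / η ≤ 2 := by
    rw [div_le_iff₀ hη]
    linarith
  rw [min_eq_left]
  exact le_max_of_le_right (by linarith)

theorem chi_zero {w : E6} {η : ℝ} (hη : 0 < η) {z : E6} (h : 3 * η / 4 ≤ ds w z) :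
    chi w η z = 0 := by
  unfold chi
  have h1 : 3 ≤ 4 * ds w z / η := by
    rw [le_div_iff₀ hη]
    linarith
  rw [max_eq_left (by linarith)]
  exact min_eq_right zero_le_one

theorem chi_act (w : E6) (η : ℝ) {c : C3} (hc : ∀ j, c j ≠ 0) (z : E6) :
    chi w η (X1.act c z) = chi w η z := by
  unfold chi
  rw [ds_act w hc]

theorem continuousOn_chi (w : E6) (η : ℝ) : ContinuousOn (chi w η) X1.U := by
  unfold chi
  have h := continuousOn_ds w
  exact continuousOn_const.inf (continuousOn_const.sup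
    (continuousOn_const.sub ((continuousOn_const.mul h).div_const η)))

theorem pr4 (_ : PrfStmt) (hSym : SymStmt) (hUni : UniStmt) (hTop : TopStmt) (hKkp : KkpStmt)
    (hAvf : AvfStmt) (_ : CptStmt) : Pr4Stmt := by
  intro δ hAd hδ p q hpq T hT O hO hSO τ hτ
  obtain ⟨hτc, hτb, hτT⟩ := hτ
  rw [Metric.tendstoLocallyUniformlyOn_iff]
  intro ε hε z₀ hz₀
  obtain ⟨hU₀, hO₀⟩ := hz₀
  obtain ⟨w, hw⟩ : ∃ w, w = nz z₀ := ⟨_, rfl⟩
  have hwO : w ∈ O := by
    rw [hw]
    exact hSO z₀ hO₀ _ (nz_coef hU₀)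
  have horb : orb w ⊆ O := by
    rintro _ ⟨c, hc, rfl⟩
    exact hSO w hwO c (ne_zero_of_norm hc)
  obtain ⟨η, hη, hthick⟩ := (isCompact_orb w).exists_thickening_subset_open hO horb
  have hin : ∀ z ∈ X1.U, ds w z < η → z ∈ O := by
    intro z hz hd
    have h1 : nz z ∈ O :=
      hthick ((Metric.mem_thickening_iff_infDist_lt ⟨w, self_mem_orb w⟩).2 hd)
    have h2 := hSO _ h1 (fun i => ((√(nn z i) : ℝ) : ℂ)) (fun i => by
      have h := (mem_U1' z).mp hz i
      exact_mod_cast (Real.sqrt_pos.2 h).ne')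
    rwa [act_sqrt_nz hz] at h2
  -- the cut-off form
  have hac : ContinuousOn (fun z => chi w η z • τ z) X1.U := by
    intro z hz
    by_cases hd : ds w z < η
    · have hzO := hin z hz hd
      have hnb : X1.U ∩ O ∈ 𝓝 z := (isOpen_U1.inter hO).mem_nhds ⟨hz, hzO⟩
      have h1 : ContinuousAt τ z := (hτc z ⟨hz, hzO⟩).continuousAt hnb
      have h2 : ContinuousAt (chi w η) z :=
        (continuousOn_chi w η z hz).continuousAt (isOpen_U1.mem_nhds hz)
      exact (h2.smul h1).continuousWithinAt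
    · have h3 : X1.U ∩ ds w ⁻¹' Set.Ioi (3 * η / 4) ∈ 𝓝 z :=
        ((continuousOn_ds w).isOpen_inter_preimage isOpen_U1 isOpen_Ioi).mem_nhds
          ⟨hz, by show 3 * η / 4 < ds w z; linarith⟩
      have h4 : (fun z => chi w η z • τ z) =ᶠ[𝓝 z] fun _ => 0 := by
        filter_upwards [h3] with y hy
        rw [chi_zero hη (le_of_lt hy.2), zero_smul]
      exact (continuousAt_const.congr h4.symm).continuousWithinAt
  have hab : X1.BasicOn X1.U (fun z => chi w η z • τ z) := by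
    have hout : ∀ z ∈ X1.U, z ∉ O → chi w η z = 0 := by
      intro z hz hzO
      apply chi_zero hη
      by_contra hc
      exact hzO (hin z hz (by linarith))
    constructor
    · intro z hz c hc v
      show chi w η (X1.act c z) • τ (X1.act c z) _ = chi w η z • τ z v
      rw [chi_act w η hc]
      by_cases hzO : z ∈ O
      · rw [hτb.1 z ⟨hz, hzO⟩ c hc v]
      · rw [hout z hz hzO, zero_smul, zero_smul]
    · intro z hz v i hv
      show chi w η z • τ z v = 0
      by_cases hzO : z ∈ O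
      · rw [hτb.2 z ⟨hz, hzO⟩ v i hv, smul_zero]
      · rw [hout z hz hzO, zero_smul]
  obtain ⟨a, ha⟩ : ∃ a : X1.Form (2 * p), ∀ z ∈ X1.U, a.1 z = chi w η z • τ z :=
    ⟨toF _, fun z hz => toF_apply hac hab hz⟩
  -- separated sets
  obtain ⟨OA, OF, ε₁, hε₁, -, -, -, -, hAOA, hFOF, -, -, hsep⟩ := hTop
    {z | z ∈ X1.U ∧ η / 2 ≤ ds w z} {z | z ∈ X1.U ∧ ds w z ≤ η / 4}
    (fun z hz => hz.1) (fun z hz => hz.1)
    (fun y hy c hc => ⟨(act1_mem_U hc y).2 hy.1, by rw [ds_act w hc]; exact hy.2⟩)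
    (fun y hy c hc => ⟨(act1_mem_U hc y).2 hy.1, by rw [ds_act w hc]; exact hy.2⟩)
    (by
      rw [Set.disjoint_left]
      rintro z ⟨-, h1⟩ ⟨-, h2⟩
      linarith)
    (by
      rintro z ⟨hz, hcl⟩
      refine ⟨hz, ?_⟩
      by_contra hc
      have hop : IsOpen (X1.U ∩ ds w ⁻¹' Set.Iio (η / 2)) :=
        (continuousOn_ds w).isOpen_inter_preimage isOpen_U1 isOpen_Iio
      obtain ⟨y, hy1, hy2⟩ := mem_closure_iff.1 hcl _ hop ⟨hz, not_le.1 hc⟩
      exact absurd (hy1.2 : ds w y < η / 2) (not_lt.2 hy2.2))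
    (by
      rintro z ⟨hz, hcl⟩
      refine ⟨hz, ?_⟩
      by_contra hc
      have hop : IsOpen (X1.U ∩ ds w ⁻¹' Set.Ioi (η / 4)) :=
        (continuousOn_ds w).isOpen_inter_preimage isOpen_U1 isOpen_Ioi
      obtain ⟨y, hy1, hy2⟩ := mem_closure_iff.1 hcl _ hop ⟨hz, not_le.1 hc⟩
      exact absurd (hy1.2 : η / 4 < ds w y) (not_lt.2 hy2.2))
  -- the small neighbourhood
  have hO₁ : IsOpen (X1.U ∩ ds w ⁻¹' Set.Iio (η / 4)) :=
    (continuousOn_ds w).isOpen_inter_preimage isOpen_U1 isOpen_Iio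
  have hS₁ : Sat (X1.U ∩ ds w ⁻¹' Set.Iio (η / 4)) := fun y hy c hc =>
    ⟨(act1_mem_U hc y).2 hy.1, by
      show ds w (X1.act c y) < η / 4
      rw [ds_act w hc]
      exact hy.2⟩
  have hd0 : ds w z₀ = 0 := by
    unfold ds
    rw [← hw]
    exact Metric.infDist_zero_of_mem (self_mem_orb w)
  have hz₁ : z₀ ∈ X1.U ∩ ds w ⁻¹' Set.Iio (η / 4) := ⟨hU₀, by
    show ds w z₀ < η / 4
    rw [hd0]
    linarith⟩
  obtain ⟨r, hr, hball⟩ := Metric.nhds_basis_closedBall.mem_iff.1 (hO₁.mem_nhds hz₁)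
  refine ⟨Metric.closedBall z₀ r, mem_nhdsWithin_of_mem_nhds (Metric.closedBall_mem_nhds z₀ hr),
    ?_⟩
  have hev1 : ∀ᶠ n in atTop, ∀ i, δ n i ≤ ε₁ := by
    rw [eventually_all]
    intro i
    exact (hδ i).eventually_le_const hε₁
  filter_upwards [hev1, hUni (2 * p) a δ hAd hδ (Metric.closedBall z₀ r) (isCompact_closedBall z₀ r)
    (fun z hz => (hball hz).1) (ε / 2) (half_pos hε)] with n hn1 hn2 y hy
  have hyb := hball hy
  -- the average vanishes away from the support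
  have hav0 : ∀ β : X1.Form (2 * q),
      (∀ z, z ∉ X1.U ∩ ds w ⁻¹' Set.Iio (η / 4) → β.1 z = 0) →
      ∀ z ∈ X1.U, η / 2 ≤ ds w z → Av (δ n) β.1 z = 0 := by
    intro β hβ z hz hdz
    unfold Av
    have h0 : ∀ g : E6, rho (δ n) g • gs g β.1 z = 0 := by
      intro g
      by_cases hg : rho (δ n) g = 0
      · rw [hg, zero_smul]
      · obtain ⟨hgU, hg2⟩ := rho_supp (hAd n) hg
        have h1 : qm g z ∉ OF := by
          refine hsep z (hAOA ⟨hz, hdz⟩) g hgU fun i => ?_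
          refine lt_of_le_of_lt ?_ (hg2 i)
          exact mul_le_mul_of_nonneg_right (by linarith [hn1 i]) (Real.sqrt_nonneg _)
        have h2 : β.1 (qm g z) = 0 := by
          apply hβ
          rintro ⟨h3, h4⟩
          exact h1 (hFOF ⟨h3, le_of_lt h4⟩)
        have h3 : gs g β.1 z = 0 := by
          unfold gs
          rw [h2]
          rfl
        rw [h3, smul_zero]
    simp only [h0, integral_zero, smul_zero]
  have hAvβ := fun β : X1.Form (2 * q) => hAvf (δ n) (hAd n) (2 * q) β.1 β.2.1 β.2.2.1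
  have hAva := hAvf (δ n) (hAd n) (2 * p) a.1 a.2.1 a.2.2.1
  have hK : (KK (δ n) p q T).1 y = (toF (Av (δ n) a.1)).1 y := by
    refine (hKkp (δ n) (hAd n) p q hpq T hT).2.2.2.2 (toF (Av (δ n) a.1))
      (X1.U ∩ ds w ⁻¹' Set.Iio (η / 4)) hO₁ hS₁ ?_ y ⟨hyb.1, hyb⟩
    intro β _ hβ
    have hsupp : X1.fsupp (toF (Av (δ n) β.1)).1 ⊆ O := by
      rintro z ⟨hz, hcl⟩
      refine hin z hz ?_
      by_contra hc
      have hop : IsOpen (X1.U ∩ ds w ⁻¹' Set.Ioi (η / 2)) :=
        (continuousOn_ds w).isOpen_inter_preimage isOpen_U1 isOpen_Ioi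
      obtain ⟨x, hx1, hx2⟩ := mem_closure_iff.1 hcl _ hop ⟨hz, by
        show η / 2 < ds w z
        linarith⟩
      refine hx2.2 ?_
      rw [toF_apply (hAvβ β).2.1 (hAvβ β).2.2.1 hx2.1]
      exact hav0 β hβ x hx2.1 (le_of_lt hx1.2)
    rw [hτT _ hsupp]
    calc X1.pair (toF (Av (δ n) a.1)).1 β.1 = X1.pair (Av (δ n) a.1) β.1 :=
          pair_congr_left _ fun z hz => toF_apply hAva.2.1 hAva.2.2.1 hz
      _ = X1.pair a.1 (Av (δ n) β.1) :=
          (hSym (δ n) (δ n) (hAd n) (hAd n)).1 (2 * p) (2 * q) (by omega) a β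
      _ = X1.pair a.1 (toF (Av (δ n) β.1)).1 :=
          pair_congr_right _ fun z hz => (toF_apply (hAvβ β).2.1 (hAvβ β).2.2.1 hz).symm
      _ = X1.pair τ (toF (Av (δ n) β.1)).1 := by
          refine pair_congr_supp _ fun z hz hne => ?_
          rw [toF_apply (hAvβ β).2.1 (hAvβ β).2.2.1 hz] at hne
          rw [ha z hz, chi_one hη, one_smul]
          by_contra hc
          exact hne (hav0 β hβ z hz (not_le.1 hc).le)
  have h5 := hn2 y hy
  have h6 : a.1 y = τ y := by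
    rw [ha y hyb.1, chi_one hη, one_smul]
    have : ds w y < η / 4 := hyb.2
    linarith
  rw [hK, toF_apply hAva.2.1 hAva.2.2.1 hyb.1, dist_comm, dist_eq_norm, ← h6]
  linarith

end Pool.Agent.SIQ.H93
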